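import Pool.Agent.U187.NS.Defs
import Pool.Agent.W353.FB.Defs

/-!
# Products of fibrations with varieties with modular Albanese variety: definitions

`f : 𝒳 → 𝒴` is a fibration over a number field `K`, with a `K/k`-trace `B`, and `Z` a variety over `K`.
-/

set_option autoImplicit false

namespace Pool.Agent.U187.TN

open NumberField IsDedekindDomain Filter Topology
open Pool.Agent.U187.NS (VarK)
open Pool.Agent.W353.FB (Fibration LocalValue IsTrace cone ValueAt IsSystem nagaoValue average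
  residue)

/-- The lower limit of `D` along the filter `l` is at least `c`. -/
def LowerGE {ι : Type} (l : Filter ι) (D : ι → ℝ) (c : ℝ) : Prop :=
  ∀ η : ℝ, 0 < η → ∀ᶠ i in l, c - η ≤ D i

/-- The upper limit of `D` along the filter `l` is at most `c`. -/
def UpperLE {ι : Type} (l : Filter ι) (D : ι → ℝ) (c : ℝ) : Prop :=
  ∀ η : ℝ, 0 < η → ∀ᶠ i in l, D i ≤ c + η

section
variable {K : Type} [Field K]

/-- The values `A`: the fibre average of the traces on `H¹`. -/
def averageValue (f : Fibration K) : LocalValue K := fun _ _ φ A => f.IsAverage 1 φ A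

/-- `A` is the fibre average of the traces on `H¹` for the fibration `f × id : 𝒳 × Z → 𝒴 × Z`: its
fibre over the point `(t, z)` is the fibre of `f` over `t`, so `A` is `q^{-(m + dim Z)}` times the number
of the points of `Z` with coordinates in the field `κ` with `q` elements times the sum of the traces
of the Frobenius on `H¹` of the fibres of `f` over the points `t` of the base. -/
def IsProductAverage (f : Fibration K) (Z : VarK K) {κ : Type} [Field κ] (φ : 𝓞 K →+* κ)
    (A : ℝ) : Prop :=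
  ∃ a : (Fin f.l → κ) → ℝ,
    (∀ t ∈ f.points φ, IsTrace f.eqFibre f.r 1 (MvPolynomial.eval₂Hom φ t) (a t)) ∧
    A = ((Nat.card κ : ℝ) ^ (f.m + Z.dim))⁻¹ *
      ((cone Z.eqs φ : ℝ) / ((Nat.card κ : ℝ) - 1) * ∑ᶠ t ∈ f.points φ, a t)

/-- The values `a(B) - A = -𝔄*` for the fibration `f × id : 𝒳 × Z → 𝒴 × Z`. -/
def productNagao (f : Fibration K) {n : ℕ} (B : Set (MvPolynomial (Fin n) (𝓞 K))) (g : ℕ)
    (Z : VarK K) : LocalValue K :=
  fun _ _ φ z => ∃ A a : ℝ, IsProductAverage f Z φ A ∧ IsTrace B g 1 φ a ∧ z = a - A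

end

section
variable {K : Type} [Field K] [NumberField K]

/-- `A v` is the fibre average of the traces on `H¹` at all primes `v ∉ R`, and
`|A v| ≤ C q_v^{1/2}`. -/
def IsAverages (f : Fibration K) (R : Finset (HeightOneSpectrum (𝓞 K)))
    (A : HeightOneSpectrum (𝓞 K) → ℝ) : Prop :=
  (∀ v, v ∉ R → ValueAt (averageValue f) v (A v)) ∧
  ∃ C : ℝ, ∀ v, v ∉ R → |A v| ≤ C * Real.sqrt (Ideal.absNorm v.asIdeal : ℝ)

/-- The numbers of points of `Z`, a smooth projective and geometrically connected variety: for almost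
all primes `v` of `K` there are finite multisets `β_k` of complex numbers of absolute value
`q_v^{k/2}` (the eigenvalues of the geometric Frobenius on `H^k(Z)`), with at most `C` elements, such
that the number of the points over every finite extension `κ` of the residue field of `v`, of
degree `e`, is `∑_{k ≤ 2 dim Z} (-1)^k ∑_{z ∈ β_k} z^e`, and `β_1 = {α_1, …, α_{b₁}}`,
`β_{2 dim Z} = {q_v^{dim Z}}`, `β_{2 dim Z - 1} = {q_v^{dim Z - 1} α_j}` (Deligne, Poincaré). -/
def IsSmoothConnected (Z : VarK K) : Prop :=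
  ∃ C : ℕ, ∀ᶠ v : HeightOneSpectrum (𝓞 K) in cofinite, ∃ (α : Fin Z.b₁ → ℂ) (β : ℕ → Multiset ℂ),
    (∀ k, (β k).card ≤ C) ∧ β 1 = Finset.univ.val.map α ∧
    β (2 * Z.dim) = {(Ideal.absNorm v.asIdeal : ℂ) ^ Z.dim} ∧
    β (2 * Z.dim - 1) =
      Finset.univ.val.map (fun j => (Ideal.absNorm v.asIdeal : ℂ) ^ (Z.dim - 1) * α j) ∧
    (∀ k, ∀ z ∈ β k, ‖z‖ = (Ideal.absNorm v.asIdeal : ℝ) ^ ((k : ℝ) / 2)) ∧
    ∀ (κ : Type) [Field κ] [Finite κ] (φ : 𝓞 K →+* κ) (e : ℕ), RingHom.ker φ = v.asIdeal →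
      Nat.card κ = Ideal.absNorm v.asIdeal ^ e →
      (cone Z.eqs φ : ℂ) = ((Ideal.absNorm v.asIdeal : ℂ) ^ e - 1) *
        ∑ k ∈ Finset.range (2 * Z.dim + 1), (-1 : ℂ) ^ k * ((β k).map (fun z => z ^ e)).sum

/-- `D(T) = N'(T) - N(T)`, where `N(T)` is the average `-Σ_T(𝔄*) / T` of the question for the fibration
`f`, and `N'(T)` the average for the fibration `f × id : 𝒳 × Z → 𝒴 × Z`. -/
def IsNagaoDeviation (f : Fibration K) {n : ℕ} (B : Set (MvPolynomial (Fin n) (𝓞 K))) (g : ℕ)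
    (Z : VarK K) (D : ℕ → ℝ) : Prop :=
  ∃ (R R' : Finset (HeightOneSpectrum (𝓞 K))) (b b' : HeightOneSpectrum (𝓞 K) → ℝ),
    IsSystem (nagaoValue f B g) R b ∧ IsSystem (productNagao f B g Z) R' b' ∧
    ∀ T, D T = average R' b' T - average R b T

/-- `D(s) = N'(s) - N(s)`, where `N(s)` is `-(s - 1) ∑ 𝔄*_v (log q_v) q_v^{-s}` for the fibration `f`,
and `N'(s)` the same for the fibration `f × id : 𝒳 × Z → 𝒴 × Z`; the residues of the question are the
limits of `-N(s)` and `-N'(s)` for `s → 1+`. -/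
def IsAnalyticDeviation (f : Fibration K) {n : ℕ} (B : Set (MvPolynomial (Fin n) (𝓞 K)))
    (g : ℕ) (Z : VarK K) (D : ℝ → ℝ) : Prop :=
  ∃ (R R' : Finset (HeightOneSpectrum (𝓞 K))) (b b' : HeightOneSpectrum (𝓞 K) → ℝ),
    IsSystem (nagaoValue f B g) R b ∧ IsSystem (productNagao f B g Z) R' b' ∧
    ∀ s, D s = residue R' b' s - residue R b s

end

end Pool.Agent.U187.TN
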