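import Pool.Agent.U187.TN.Engine
import Pool.Agent.U187.TN.Defs

/-! Natural and analytic averages over the primes. -/

set_option autoImplicit false

namespace Pool.Agent.U187.TN

open Filter Topology NumberField IsDedekindDomain
open Pool.Agent.W540.BE Pool.Agent.W353.L1 Pool.Agent.W401.Cheb
open Pool.Agent.H341R2 (lam lam_tendsto lam_bounded)
open Pool.Agent.H126U.ST Pool.Agent.H126U.JT Pool.Agent.H126V.Taub Pool.Agent.H126V.FC
open Pool.Agent.W353.SP (Bd Mn Hs EN mnN LA_EN)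
open Pool.Agent.W353.FB (EA mnA summable_EA term_empty hsSmall LA_EN' BdOff DS_diff)
open Pool.Agent.U187.NS (VarK)

section
variable {K : Type} [Field K] [NumberField K] {φ : HeightOneSpectrum (𝓞 K) → ℝ} {B : ℝ}

theorem hasDerivAt_EP (hB : ∀ v, |φ v| ≤ B) {ε : ℝ} (hε : 0 < ε) :
    HasDerivAt (fun e : ℝ => EP (nm K) e φ) (-DS ∅ φ (1 + ε)) ε := by
  have hN : NormSys (nm K) := normSys
  have hq : ∀ v : HeightOneSpectrum (𝓞 K), (1 : ℝ) < (nm K v : ℝ) := fun v => by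
    have := two_le_nm v
    exact_mod_cast (by omega : 1 < nm K v)
  have hu : Summable fun v : HeightOneSpectrum (𝓞 K) =>
      |B| * Real.log (nm K v) * (nm K v : ℝ) ^ (-(1 + ε / 2)) := by
    have h1 := summable_EA (K := K) (f := fun _ => |B|) (Bd.const _)
      (s := 1 + ε / 2) (by linarith)
    refine h1.congr fun v => ?_
    rw [term_empty]
    rfl
  have key := hasDerivAt_tsum_of_isPreconnected (𝕜 := ℝ)
    (g := fun (v : HeightOneSpectrum (𝓞 K)) (e : ℝ) => φ v * (nm K v : ℝ) ^ (-(1 + e)))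
    (g' := fun (v : HeightOneSpectrum (𝓞 K)) (e : ℝ) =>
      -(φ v * Real.log (nm K v) * (nm K v : ℝ) ^ (-(1 + e))))
    (t := Set.Ioi (ε / 2)) (y₀ := ε) (y := ε) hu isOpen_Ioi isPreconnected_Ioi
    (fun v e _ => by
      have h1 : HasDerivAt (fun e : ℝ => -(1 + e)) (-1) e := by
        exact ((hasDerivAt_id e).const_add (1 : ℝ)).neg
      have h2 := (h1.const_rpow (a := (nm K v : ℝ)) (by linarith [hq v])).const_mul (φ v)
      refine h2.congr_deriv ?_
      ring)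
    (fun v e he => by
      have he' : ε / 2 < e := he
      have h0 : 0 ≤ Real.log (nm K v) := Real.log_natCast_nonneg _
      rw [norm_neg, norm_mul, norm_mul, Real.norm_eq_abs, Real.norm_eq_abs, Real.norm_eq_abs,
        abs_of_nonneg h0, abs_of_nonneg (by positivity : (0 : ℝ) ≤ (nm K v : ℝ) ^ (-(1 + e)))]
      refine mul_le_mul (mul_le_mul_of_nonneg_right ((hB v).trans (le_abs_self B)) h0) ?_
        (by positivity) (by positivity)
      exact Real.rpow_le_rpow_of_exponent_le (hq v).le (by linarith))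
    (show ε / 2 < ε by linarith) (summable_EP hN hε hB) (show ε / 2 < ε by linarith)
  refine key.congr_deriv ?_
  rw [tsum_neg]
  unfold DS
  rw [tsum_congr fun v => term_empty φ (1 + ε) v]
  rfl

/-- **Analytic averages and Dirichlet series.** -/
theorem ana_le (hB : ∀ v, |φ v| ≤ B) {c : ℝ}
    (h : ∀ η : ℝ, 0 < η → ∀ᶠ s : ℝ in 𝓝[>] 1, EA K s φ ≤ c + η) {η : ℝ} (hη : 0 < η) :
    ∀ᶠ ε : ℝ in 𝓝[>] 0, EP (nm K) ε φ / lam ε ≤ c + η := by
  set a : ℝ := c + η / 2 with ha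
  obtain ⟨u, hu1, hu⟩ := mem_nhdsGT_iff_exists_Ioo_subset.1 (h (η / 2) (half_pos hη))
  have hu1' : (1 : ℝ) < u := hu1
  set ε₀ : ℝ := (u - 1) / 2 with hε₀
  have hε₀0 : 0 < ε₀ := by rw [hε₀]; linarith
  have h1 : ∀ e : ℝ, 0 < e → e ≤ ε₀ → e * DS ∅ φ (1 + e) ≤ a := by
    intro e he he'
    have h2 : (1 : ℝ) + e ∈ Set.Ioo 1 u := ⟨by linarith, by rw [hε₀] at he'; linarith⟩
    have h3 : EA K (1 + e) φ ≤ a := hu h2
    unfold EA at h3
    rw [add_sub_cancel_left] at h3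
    exact h3
  set G : ℝ → ℝ := fun e => EP (nm K) e φ + a * Real.log e with hG
  have hd : ∀ e : ℝ, 0 < e → HasDerivAt G (-DS ∅ φ (1 + e) + a * e⁻¹) e := fun e he =>
    (hasDerivAt_EP hB he).add ((Real.hasDerivAt_log he.ne').const_mul a)
  have hmono : MonotoneOn G (Set.Ioc 0 ε₀) := by
    refine monotoneOn_of_deriv_nonneg (convex_Ioc 0 ε₀) (fun e he =>
      (hd e he.1).continuousAt.continuousWithinAt) (fun e he => ?_) fun e he => ?_
    · rw [interior_Ioc] at he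
      exact (hd e he.1).differentiableAt.differentiableWithinAt
    · rw [interior_Ioc] at he
      rw [(hd e he.1).deriv]
      have h2 := h1 e he.1 he.2.le
      have h3 : DS ∅ φ (1 + e) ≤ a * e⁻¹ := by
        rw [← div_eq_mul_inv, le_div_iff₀ he.1]
        linarith
      linarith
  obtain ⟨C, hC⟩ := lam_bounded
  have l2 : Tendsto (fun ε : ℝ => (|G ε₀| + |a| * C) / lam ε) (𝓝[>] 0) (𝓝 0) :=
    tendsto_const_nhds.div_atTop lam_tendsto
  filter_upwards [hC, self_mem_nhdsWithin, lam_tendsto.eventually_gt_atTop 0,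
    l2.eventually_lt_const (half_pos hη), Ioc_mem_nhdsGT hε₀0] with ε h2 hε hε' h3 h4
  have h5 := hmono h4 ⟨hε₀0, le_rfl⟩ h4.2
  have h6 : EP (nm K) ε φ ≤ a * lam ε + (|G ε₀| + |a| * C) := by
    have h7 : EP (nm K) ε φ + a * Real.log ε ≤ G ε₀ := h5
    have h8 := le_abs_self (G ε₀)
    have h9 : |a * (lam ε + Real.log ε)| ≤ |a| * C := by
      rw [abs_mul]
      exact mul_le_mul_of_nonneg_left h2 (abs_nonneg a)
    have h10 := neg_abs_le (a * (lam ε + Real.log ε))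
    nlinarith
  rw [div_le_iff₀ hε']
  have h7 : (|G ε₀| + |a| * C) < η / 2 * lam ε := by
    rwa [div_lt_iff₀ hε'] at h3
  have e : (c + η) * lam ε = a * lam ε + η / 2 * lam ε := by
    rw [ha]
    ring
  rw [e]
  linarith

end

section
variable {K : Type} [Field K] [NumberField K] {ι : Type} {l : Filter ι}
  {E : ι → (HeightOneSpectrum (𝓞 K) → ℝ) → ℝ}

/-- averages which dominate the logarithmic averages -/
structure IsAvg (l : Filter ι) (E : ι → (HeightOneSpectrum (𝓞 K) → ℝ) → ℝ) : Prop where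
  mn : Mn l E
  tr : ∀ φ, Bd φ → ∀ c : ℝ, (∀ η : ℝ, 0 < η → ∀ᶠ i in l, E i φ ≤ c + η) →
    ∀ η : ℝ, 0 < η → ∀ᶠ ε : ℝ in 𝓝[>] 0, EP (nm K) ε φ / lam ε ≤ c + η

/-- natural averages -/
theorem isAvgN : IsAvg atTop (EN K) where
  mn := mnN K
  tr φ hφ c h η hη := by
    obtain ⟨B, hB⟩ := hφ
    refine Pool.Agent.U187.TM.abel_le hB (fun η' hη' => ?_) hη
    filter_upwards [h (η' / 2) (half_pos hη'),
      (LA_EN (∅ : Finset (HeightOneSpectrum (𝓞 K))) (φ := φ) ⟨B, hB⟩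
        fun _ _ => rfl).eventually_lt_const (half_pos hη')] with T h1 h2
    linarith

/-- analytic averages -/
theorem isAvgA : IsAvg (𝓝[>] (1 : ℝ)) (EA K) where
  mn := mnA K
  tr φ hφ c h η hη := by
    obtain ⟨B, hB⟩ := hφ
    exact ana_le hB h hη

theorem IsAvg.tr' (h : IsAvg l E) {φ : HeightOneSpectrum (𝓞 K) → ℝ} (hφ : Bd φ) {c : ℝ}
    (hc : ∀ η : ℝ, 0 < η → ∀ᶠ i in l, c - η ≤ E i φ) {η : ℝ} (hη : 0 < η) :
    ∀ᶠ ε : ℝ in 𝓝[>] 0, c - η ≤ EP (nm K) ε φ / lam ε := by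
  have hb : Bd fun v => (-1) * φ v := (Bd.const (-1)).mul hφ
  filter_upwards [h.tr (fun v => (-1) * φ v) hb (-c) (fun η' hη' => (hc η' hη').mono fun i hi => by
    rw [h.mn.smul]
    linarith) η hη] with ε h1
  rw [EP_const_mul, mul_div_assoc] at h1
  linarith

theorem IsAvg.ge (h : IsAvg l E) {φ : HeightOneSpectrum (𝓞 K) → ℝ} (hφ : Bd φ) {Z : VarK K}
    {D : ι → ℝ} (hD : Tendsto (fun i => D i - E i fun v => φ v * t₁ Z v) l (𝓝 0)) {c : ℝ}
    (hc : LowerGE l D c) : GE φ Z c := fun η hη => by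
  refine h.tr' (hφ.mul ⟨Z.b₁, t₁_le Z⟩) (fun η' hη' => ?_) hη
  filter_upwards [hc (η' / 2) (half_pos hη'), hD.eventually_lt_const (half_pos hη')] with i h1 h2
  linarith

theorem IsAvg.le (h : IsAvg l E) {φ : HeightOneSpectrum (𝓞 K) → ℝ} (hφ : Bd φ) {Z : VarK K}
    {D : ι → ℝ} (hD : Tendsto (fun i => D i - E i fun v => φ v * t₁ Z v) l (𝓝 0)) {c : ℝ}
    (hc : UpperLE l D c) : LE φ Z c := fun η hη => by
  refine h.tr _ (hφ.mul ⟨Z.b₁, t₁_le Z⟩) c (fun η' hη' => ?_) η hη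
  filter_upwards [hc (η' / 2) (half_pos hη'), hD.eventually_const_lt
    (show -(η' / 2) < (0 : ℝ) by linarith)] with i h1 h2
  linarith

theorem IsAvg.square (h : IsAvg l E) {φ : HeightOneSpectrum (𝓞 K) → ℝ} (hφ : Bd φ)
    {S : ι → ℝ} (hS : Tendsto (fun i => S i - E i fun v => φ v ^ 2) l (𝓝 0)) {ρ : ℝ}
    (hρ : UpperLE l S ρ) : Square φ ρ := fun η hη => by
  have hb : Bd fun v => φ v ^ 2 := by
    have h1 := hφ.mul hφ
    obtain ⟨B, hB⟩ := h1
    refine ⟨B, fun v => ?_⟩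
    have h2 := hB v
    simp only at h2 ⊢
    rw [sq]
    exact h2
  refine h.tr _ hb ρ (fun η' hη' => ?_) η hη
  filter_upwards [hρ (η' / 2) (half_pos hη'), hS.eventually_const_lt
    (show -(η' / 2) < (0 : ℝ) by linarith)] with i h1 h2
  linarith

/-- the difference of two averages -/
theorem IsAvg.diff (h : IsAvg l E) {t t' ψ : HeightOneSpectrum (𝓞 K) → ℝ} (ht : Bd t)
    (ht' : Bd t') (hψ : Bd ψ)
    (h0 : ∀ η : ℝ, 0 < η → ∀ᶠ v in cofinite, |t' v - t v - ψ v| ≤ η) :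
    Tendsto (fun i => E i t' - E i t - E i ψ) l (𝓝 0) := by
  have hb1 : Bd fun v => (-1) * t v := (Bd.const (-1)).mul ht
  have hb2 : Bd fun v => (-1) * ψ v := (Bd.const (-1)).mul hψ
  have hb3 : Bd fun v => t' v + (-1) * t v := ht'.add hb1
  have hb4 : Bd fun v => t' v + (-1) * t v + (-1) * ψ v := hb3.add hb2
  have h1 := hsSmall h.mn hb4 (fun η hη => (h0 η hη).mono fun v hv => by
    have e : t' v + (-1) * t v + (-1) * ψ v = t' v - t v - ψ v := by ring
    rw [e]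
    exact hv)
  refine h1.2.congr' ?_
  filter_upwards [h.mn.add _ _ hb3 hb2, h.mn.add _ _ ht' hb1] with i h2 h3
  rw [h2, h3, h.mn.smul, h.mn.smul]
  ring

end

section
variable {K : Type} [Field K] [NumberField K] {R : Finset (HeightOneSpectrum (𝓞 K))}
  {b t : HeightOneSpectrum (𝓞 K) → ℝ}

theorem natS (ht : Bd t) (h : ∀ v, v ∉ R → b v = t v) :
    Tendsto (fun T : ℕ => Pool.Agent.W353.FB.average R b T - EN K T t) atTop (𝓝 0) := by
  refine (LA_EN R ht h).congr fun T => ?_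
  rw [Pool.Agent.W353.FB.average_eq]

theorem anaS (ht : Bd t) (h : ∀ v, v ∉ R → b v = t v) :
    Tendsto (fun s : ℝ => Pool.Agent.W353.FB.residue R b s - EA K s t) (𝓝[>] 1) (𝓝 0) := by
  obtain ⟨B, hB⟩ := ht
  have hS : BdOff R b := ⟨|B|, abs_nonneg B, fun v hv => by
    rw [h v hv]
    exact (hB v).trans (le_abs_self B)⟩
  refine (DS_diff hS ⟨B, hB⟩ ⟨B, hB⟩ (Filter.Eventually.of_forall h) (by simp)).congr fun s => ?_
  rw [Pool.Agent.W353.FB.residue_eq]

/-- cut off at finitely many primes -/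
noncomputable def off (R : Finset (HeightOneSpectrum (𝓞 K))) (b : HeightOneSpectrum (𝓞 K) → ℝ)
    (v : HeightOneSpectrum (𝓞 K)) : ℝ := open Classical in if v ∈ R then 0 else b v

theorem off_of {v : HeightOneSpectrum (𝓞 K)} (hv : v ∉ R) : off R b v = b v := by
  unfold off
  rw [if_neg hv]

theorem bd_off (h : ∃ C : ℝ, ∀ v, v ∉ R → |b v| ≤ C) : Bd (off R b) := by
  obtain ⟨C, hC⟩ := h
  refine ⟨|C|, fun v => ?_⟩
  unfold off
  split_ifs with hv
  · rw [abs_zero]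
    exact abs_nonneg C
  · exact (hC v hv).trans (le_abs_self C)

end

end Pool.Agent.U187.TN
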