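import Pool.Agent.U187.TN.Defs

/-!
# Fibre averages on `H²` for products with a constant variety: definitions

`f : 𝒳 → 𝒴` is a fibration over a number field `K`, and `Z` a variety over `K`.
-/

set_option autoImplicit false

namespace Pool.Agent.U187.TN

open NumberField IsDedekindDomain Filter Topology
open Pool.Agent.U187.NS (VarK)
open Pool.Agent.W353.FB (Fibration LocalValue IsTrace ValueAt IsSystem degreeTwoValue residue)

section
variable {K : Type} [Field K]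

/-- The values `𝔅 / q` for the fibration `𝒳 × Z → 𝒴`: its fibre over `t` is `X_t × Z`, where `X_t` is
the fibre of `f`, and by the formula of Künneth the trace of the Frobenius on `H²(X_t × Z)` is
`a₂(t) + a₁(t) c₁ + c₂`, for the traces `a₁(t)`, `a₂(t)` on `H¹(X_t)`, `H²(X_t)` and `c₁`, `c₂` on
`H¹(Z)`, `H²(Z)`. -/
def productTwo (f : Fibration K) (Z : VarK K) : LocalValue K :=
  fun κ _ φ z => ∃ (a₁ a₂ : (Fin f.l → κ) → ℝ) (c₁ c₂ : ℝ),
    (∀ t ∈ f.points φ, IsTrace f.eqFibre f.r 1 (MvPolynomial.eval₂Hom φ t) (a₁ t) ∧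
      IsTrace f.eqFibre f.r 2 (MvPolynomial.eval₂Hom φ t) (a₂ t)) ∧
    IsTrace Z.eqs Z.dim 1 φ c₁ ∧ IsTrace Z.eqs Z.dim 2 φ c₂ ∧
    z = ((Nat.card κ : ℝ) ^ f.m)⁻¹ * (∑ᶠ t ∈ f.points φ, (a₂ t + a₁ t * c₁ + c₂)) / Nat.card κ

/-- The values `𝔅 / q` for the constant fibration `Z × 𝒴 → 𝒴`. -/
def constantTwo (f : Fibration K) (Z : VarK K) : LocalValue K :=
  fun κ _ φ z => ∃ c₂ : ℝ, IsTrace Z.eqs Z.dim 2 φ c₂ ∧
    z = ((Nat.card κ : ℝ) ^ f.m)⁻¹ * (∑ᶠ t ∈ f.points φ, c₂) / Nat.card κ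

end

section
variable {K : Type} [Field K] [NumberField K]

/-- `D(s) = N'(s) - N(s) - N''(s)`, where `N'`, `N`, `N''` are the functions
`(s - 1) ∑ 𝔅_v (log q_v) q_v^{-s-1}` for the fibrations `𝒳 × Z → 𝒴`, `f : 𝒳 → 𝒴` and `Z × 𝒴 → 𝒴`; the
residues of the question are their limits for `s → 1+`. -/
def IsTwoDeviation (f : Fibration K) (Z : VarK K) (D : ℝ → ℝ) : Prop :=
  ∃ (R R' R'' : Finset (HeightOneSpectrum (𝓞 K))) (b b' b'' : HeightOneSpectrum (𝓞 K) → ℝ),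
    IsSystem (degreeTwoValue f) R b ∧ IsSystem (productTwo f Z) R' b' ∧
    IsSystem (constantTwo f Z) R'' b'' ∧
    ∀ s, D s = residue R' b' s - residue R b s - residue R'' b'' s

end

end Pool.Agent.U187.TN
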