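import Pool.Agent.U187.TM.Main
import Pool.Agent.W353.FB.Final

/-! The spectrum of a bounded function on the newforms. -/

set_option autoImplicit false

namespace Pool.Agent.U187.TN

open Filter Topology NumberField IsDedekindDomain CongruenceSubgroup
open scoped MatrixGroups
open Pool.Agent.W540.BE Pool.Agent.W353.L1 Pool.Agent.W401.Cheb
open Pool.Agent.H341R2 (lam lam_tendsto lam_bounded)
open Pool.Agent.W353.PV (tF)
open Pool.Agent.W353.SP (Bd)
open Pool.Agent.Y149.LN (bessel_D)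
open Pool.Agent.Y722.RS (tt)
open Pool.Agent.U187.MF (IsNewforms)
open Pool.Agent.U187.NS
open Pool.Agent.U187.TM (sq_shift)

section
variable {K : Type} [Field K] [NumberField K] {Ω : Type} {L : Ω → ℕ}
  {f : ∀ x, CuspForm (Gamma0 (L x) : Subgroup (GL (Fin 2) ℝ)) 2} {Z : VarK K}
  {φ : HeightOneSpectrum (𝓞 K) → ℝ} {B : ℝ}

/-- the trace on the first cohomology -/
noncomputable def t₁ (Z : VarK K) (v : HeightOneSpectrum (𝓞 K)) : ℝ := tF Z.eqs Z.dim 1 Z.b₁ K v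

theorem t₁_le (Z : VarK K) (v : HeightOneSpectrum (𝓞 K)) : |t₁ Z v| ≤ (Z.b₁ : ℝ) :=
  abs_tr_le _ _ _

/-- the spectrum of a function on the primes -/
noncomputable def sg (f : ∀ x, CuspForm (Gamma0 (L x) : Subgroup (GL (Fin 2) ℝ)) 2)
    (φ : HeightOneSpectrum (𝓞 K) → ℝ) (x : Ω × ℝ) (ε : ℝ) : ℝ :=
  (EP (nm K) ε fun v => φ v * (uN f x v).re) / lam ε

/-- the mean square is at most `ρ` -/
def Square (φ : HeightOneSpectrum (𝓞 K) → ℝ) (ρ : ℝ) : Prop :=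
  ∀ η : ℝ, 0 < η → ∀ᶠ ε : ℝ in 𝓝[>] 0, (EP (nm K) ε fun v => φ v ^ 2) / lam ε ≤ ρ + η

/-- **Bessel's inequality.** -/
theorem sg_bessel (hf : IsNewforms L f) (hB : ∀ v, |φ v| ≤ B) {ρ : ℝ} (hρ : Square φ ρ)
    (J : Finset Ω) {η : ℝ} (hη : 0 < η) : ∀ᶠ ε : ℝ in 𝓝[>] 0,
      ∑ x ∈ J, (max (sg f φ (x, 0) ε) 0) ^ 2 ≤ Module.finrank ℚ K * ρ + η ∧
      ∑ x ∈ J, (max (-sg f φ (x, 0) ε) 0) ^ 2 ≤ Module.finrank ℚ K * ρ + η := by
  classical
  have hN : NormSys (nm K) := normSys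
  have hD : (0 : ℝ) < Module.finrank ℚ K := by exact_mod_cast Module.finrank_pos
  set S : Finset (Ω × ℝ) :=
    J.map ⟨fun x => ((x, 0) : Ω × ℝ), fun a b h => (Prod.ext_iff.1 h).1⟩ with hS
  have hB' : ∀ v, |-φ v| ≤ B := fun v => by rw [abs_neg]; exact hB v
  have hV := sumN (K := K) hf S
  have e : ∀ x ε, (EP (nm K) ε fun v => -φ v * (uN f x v).re) =
      -(EP (nm K) ε fun v => φ v * (uN f x v).re) := by
    intro x ε
    rw [← neg_one_mul (EP (nm K) ε fun v => φ v * (uN f x v).re), ← EP_const_mul]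
    exact Pool.Agent.Y677.SM.EP_congr fun v => by ring
  have g1 := bessel_D hN lam_tendsto (EP_one K) S (uN f) φ hD (fun x v => norm_uN hf x v) hB hV
    (sg f φ) (fun x _ => by
      refine tendsto_const_nhds.congr fun ε => ?_
      unfold sg
      rw [sub_self]) (half_pos hη)
  have g2 := bessel_D hN lam_tendsto (EP_one K) S (uN f) (fun v => -φ v)
    hD (fun x v => norm_uN hf x v) hB' hV (fun x ε => -sg f φ x ε) (fun x _ => by
      refine tendsto_const_nhds.congr fun ε => ?_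
      unfold sg
      rw [e]
      ring) (half_pos hη)
  filter_upwards [g1, g2, hρ (η / (2 * Module.finrank ℚ K)) (by positivity)] with ε h4 h5 h6
  simp only [neg_sq] at h5
  rw [hS, Finset.sum_map] at h4 h5
  have h7 : (Module.finrank ℚ K : ℝ) * ((EP (nm K) ε fun v => φ v ^ 2) / lam ε) ≤
      Module.finrank ℚ K * ρ + η / 2 := by
    calc (Module.finrank ℚ K : ℝ) * ((EP (nm K) ε fun v => φ v ^ 2) / lam ε) ≤
        Module.finrank ℚ K * (ρ + η / (2 * Module.finrank ℚ K)) :=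
          mul_le_mul_of_nonneg_left h6 hD.le
      _ = _ := by field_simp
  have h4' : ∑ x ∈ J, (max (sg f φ (x, 0) ε) 0) ^ 2 ≤ Module.finrank ℚ K *
      ((EP (nm K) ε fun v => φ v ^ 2) / lam ε) + η / 2 := h4
  have h5' : ∑ x ∈ J, (max (-sg f φ (x, 0) ε) 0) ^ 2 ≤ Module.finrank ℚ K *
      ((EP (nm K) ε fun v => φ v ^ 2) / lam ε) + η / 2 := h5
  constructor <;> linarith

/-- **Additivity.** -/
theorem add_sg (hf : IsNewforms L f) (hB0 : 0 ≤ B) (hB : ∀ v, |φ v| ≤ B) {m : Ω →₀ ℕ}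
    (hm : IsNewformSum f Z m) :
    Tendsto (fun ε : ℝ => (EP (nm K) ε fun v => φ v * t₁ Z v) / lam ε -
      m.sum fun x k => (k : ℝ) * sg f φ (x, 0) ε) (𝓝[>] 0) (𝓝 0) := by
  classical
  have hN : NormSys (nm K) := normSys
  obtain ⟨S, hS⟩ := tF_ker hf hm
  set f1 : HeightOneSpectrum (𝓞 K) → ℝ := fun v => φ v * t₁ Z v with hf1
  set g : Ω → HeightOneSpectrum (𝓞 K) → ℝ := fun x v => φ v * (uN f (x, 0) v).re with hg
  set ψ : HeightOneSpectrum (𝓞 K) → ℝ := fun v =>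
    f1 v + (-1) * ∑ x ∈ m.support, (m x : ℝ) * g x v with hψ
  have hb1 : ∀ v, |f1 v| ≤ B * Z.b₁ := by
    intro v
    rw [hf1]
    simp only
    rw [abs_mul]
    exact mul_le_mul (hB v) (t₁_le _ _) (abs_nonneg _) hB0
  have hb2 : ∀ x v, |g x v| ≤ B * 2 := by
    intro x v
    rw [hg]
    simp only
    rw [abs_mul]
    exact mul_le_mul (hB v) ((Complex.abs_re_le_norm _).trans (norm_uN hf _ v))
      (abs_nonneg _) hB0
  have hb3 : ∀ x ∈ m.support, ∀ v, |(m x : ℝ) * g x v| ≤ (m x : ℝ) * (B * 2) := by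
    intro x _ v
    rw [abs_mul, abs_of_nonneg (Nat.cast_nonneg _)]
    exact mul_le_mul_of_nonneg_left (hb2 x v) (Nat.cast_nonneg _)
  set G : ℝ := ∑ x ∈ m.support, (m x : ℝ) * (B * 2) with hG
  have hb4 : ∀ v, |∑ x ∈ m.support, (m x : ℝ) * g x v| ≤ G := fun v =>
    (Finset.abs_sum_le_sum_abs _ _).trans (Finset.sum_le_sum fun x hx => hb3 x hx v)
  have hb5 : ∀ v, |(-1) * ∑ x ∈ m.support, (m x : ℝ) * g x v| ≤ G := fun v => by
    rw [abs_mul, abs_neg, abs_one, one_mul]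
    exact hb4 v
  have h0 := EP_deg (φ := ψ) (B := B * Z.b₁ + G) (by positivity)
    (fun v => (abs_add_le _ _).trans (add_le_add (hb1 v) (hb5 v))) (S := S) (fun p hp u => by
      rw [hψ, hf1, hg]
      simp only
      have e1 : t₁ Z (Pool.Agent.H921R2.TatePole.kerPrime p u).1.1 =
        m.sum fun x k => (k : ℝ) * tt (f x) p := hS p hp u
      rw [e1]
      simp only [uN_ker]
      unfold Finsupp.sum
      rw [Finset.mul_sum, Finset.mul_sum, ← Finset.sum_add_distrib]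
      refine Finset.sum_eq_zero fun x _ => ?_
      ring)
  refine h0.congr' ?_
  filter_upwards [self_mem_nhdsWithin] with ε hε
  have hε' : (0 : ℝ) < ε := hε
  rw [hψ, EP_add hN hε' hb1 hb5, EP_const_mul, EP_sum hN hε' m.support
    (fun x v => (m x : ℝ) * g x v) (fun x => (m x : ℝ) * (B * 2)) hb3]
  unfold Finsupp.sum sg
  rw [add_div, sub_eq_add_neg]
  congr 1
  rw [neg_one_mul, neg_div, Finset.sum_div]
  congr 1
  refine Finset.sum_congr rfl fun x _ => ?_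
  rw [EP_const_mul, mul_div_assoc]

/-- the lower limit of the logarithmic mean values of `φ t₁(Z)` -/
def GE (φ : HeightOneSpectrum (𝓞 K) → ℝ) (Z : VarK K) (c : ℝ) : Prop :=
  ∀ η : ℝ, 0 < η → ∀ᶠ ε : ℝ in 𝓝[>] 0, c - η ≤ (EP (nm K) ε fun v => φ v * t₁ Z v) / lam ε

/-- the upper limit -/
def LE (φ : HeightOneSpectrum (𝓞 K) → ℝ) (Z : VarK K) (c : ℝ) : Prop :=
  ∀ η : ℝ, 0 < η → ∀ᶠ ε : ℝ in 𝓝[>] 0, (EP (nm K) ε fun v => φ v * t₁ Z v) / lam ε ≤ c + η

theorem spec_ge (hf : IsNewforms L f) (hB0 : 0 ≤ B) (hB : ∀ v, |φ v| ≤ B) {m : Ω →₀ ℕ}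
    (hm : IsNewformSum f Z m) {c : ℝ} (hc : GE φ Z c) {η : ℝ} (hη : 0 < η) :
    ∀ᶠ ε : ℝ in 𝓝[>] 0, c - η ≤ m.sum fun x k => (k : ℝ) * sg f φ (x, 0) ε := by
  filter_upwards [hc (η / 2) (half_pos hη),
    (add_sg hf hB0 hB hm).eventually_lt_const (half_pos hη)] with ε h1 h2
  linarith

theorem spec_le (hf : IsNewforms L f) (hB0 : 0 ≤ B) (hB : ∀ v, |φ v| ≤ B) {m : Ω →₀ ℕ}
    (hm : IsNewformSum f Z m) {c : ℝ} (hc : LE φ Z c) {η : ℝ} (hη : 0 < η) :
    ∀ᶠ ε : ℝ in 𝓝[>] 0, (m.sum fun x k => (k : ℝ) * sg f φ (x, 0) ε) ≤ c + η := by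
  filter_upwards [hc (η / 2) (half_pos hη),
    (add_sg hf hB0 hB hm).eventually_const_lt (show -(η / 2) < (0 : ℝ) by linarith)]
    with ε h1 h2
  linarith

section
variable {ι : Type} {W : ι → VarK K} {m : ι → Ω →₀ ℕ} {M : ℕ} {ρ : ℝ}

/-- the inequality for families, from bounds for the spectrum -/
theorem family (hf : IsNewforms L f) (hB : ∀ v, |φ v| ≤ B) (hρ : Square φ ρ)
    (hM : ∀ (x : Ω) (S : Finset ι), (∀ i ∈ S, m i x ≠ 0) → S.card ≤ M)
    (J : Finset ι) (c : ι → ℝ) (hc : ∀ i ∈ J, 0 ≤ c i) (σ : ℝ) (hσ : σ = 1 ∨ σ = -1)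
    (h : ∀ i ∈ J, ∀ η : ℝ, 0 < η → ∀ᶠ ε : ℝ in 𝓝[>] 0,
      c i - η ≤ (m i).sum fun x k => (k : ℝ) * (σ * sg f φ (x, 0) ε)) :
    ∑ i ∈ J, c i ^ 2 / ((m i).sum fun _ k => k ^ 2 : ℕ) ≤ M * (Module.finrank ℚ K * ρ) := by
  classical
  set U : Finset Ω := J.biUnion fun i => (m i).support with hU
  set A : ℝ := ∑ i ∈ J, 2 * c i / ((m i).sum fun _ k => k ^ 2 : ℕ) with hA
  have hA0 : 0 ≤ A := Finset.sum_nonneg fun i hi => by
    have := hc i hi
    positivity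
  refine le_of_forall_pos_le_add fun η hη => ?_
  set θ : ℝ := η / (2 * (A + M + 1)) with hθ
  have hM0 : (0 : ℝ) ≤ M := Nat.cast_nonneg _
  have hθ0 : 0 < θ := by positivity
  have h1 : ∀ᶠ ε : ℝ in 𝓝[>] 0, ∀ i ∈ J,
      c i - θ ≤ (m i).sum fun x k => (k : ℝ) * (σ * sg f φ (x, 0) ε) :=
    (Finset.eventually_all J).2 fun i hi => h i hi θ hθ0
  obtain ⟨ε, h2, h3⟩ := (h1.and (sg_bessel hf hB hρ U hθ0)).exists
  have h4 : ∑ x ∈ U, (max (σ * sg f φ (x, 0) ε) 0) ^ 2 ≤ Module.finrank ℚ K * ρ + θ := by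
    rcases hσ with rfl | rfl
    · simpa only [one_mul] using h3.1
    · simpa only [neg_one_mul] using h3.2
  have h5 : ∑ i ∈ J, (max (c i - θ) 0) ^ 2 / ((m i).sum fun _ k => k ^ 2 : ℕ) ≤
      M * (Module.finrank ℚ K * ρ + θ) := by
    have h6 : ∀ i ∈ J, (max (c i - θ) 0) ^ 2 / ((m i).sum fun _ k => k ^ 2 : ℕ) ≤
        ∑ x ∈ (m i).support, (max (σ * sg f φ (x, 0) ε) 0) ^ 2 := by
      intro i hi
      refine le_trans ?_ (w_ineq (m i) (fun x => σ * sg f φ (x, 0) ε)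
        (fun x => max (σ * sg f φ (x, 0) ε) 0) (fun x => le_max_left _ _)
        fun x => le_max_right _ _)
      refine div_le_div_of_nonneg_right ?_ (Nat.cast_nonneg _)
      exact pow_le_pow_left₀ (le_max_right _ _) (max_le_max_right _ (h2 i hi)) 2
    refine (Finset.sum_le_sum h6).trans ?_
    refine (mult_le hM J (fun x => max (σ * sg f φ (x, 0) ε) 0 ^ 2) fun x => sq_nonneg _).trans ?_
    exact mul_le_mul_of_nonneg_left h4 hM0
  have h7 : ∑ i ∈ J, c i ^ 2 / ((m i).sum fun _ k => k ^ 2 : ℕ) ≤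
      ∑ i ∈ J, (max (c i - θ) 0) ^ 2 / ((m i).sum fun _ k => k ^ 2 : ℕ) + θ * A := by
    rw [hA, Finset.mul_sum, ← Finset.sum_add_distrib]
    refine Finset.sum_le_sum fun i hi => ?_
    have h8 := sq_shift (hc i hi) hθ0.le
    have e : θ * (2 * c i / ((m i).sum fun _ k => k ^ 2 : ℕ)) =
        (2 * c i * θ) / ((m i).sum fun _ k => k ^ 2 : ℕ) := by ring
    rw [e, ← add_div]
    refine div_le_div_of_nonneg_right ?_ (Nat.cast_nonneg _)
    linarith
  have h9 : θ * A + M * θ ≤ η := by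
    have e : θ * (A + M + 1) = η / 2 := by
      rw [hθ]
      field_simp
    nlinarith
  nlinarith

/-- **The inequality for families.** -/
theorem main_sum (hf : IsNewforms L f) (hB0 : 0 ≤ B) (hB : ∀ v, |φ v| ≤ B) (hρ : Square φ ρ)
    (hm : ∀ i, IsNewformSum f (W i) (m i))
    (hM : ∀ (x : Ω) (S : Finset ι), (∀ i ∈ S, m i x ≠ 0) → S.card ≤ M)
    (J : Finset ι) (c : ι → ℝ) (hc : ∀ i ∈ J, 0 ≤ c i)
    (h : (∀ i ∈ J, GE φ (W i) (c i)) ∨ ∀ i ∈ J, LE φ (W i) (-c i)) :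
    ∑ i ∈ J, c i ^ 2 / ((m i).sum fun _ k => k ^ 2 : ℕ) ≤ M * (Module.finrank ℚ K * ρ) := by
  rcases h with h | h
  · refine family hf hB hρ hM J c hc 1 (Or.inl rfl) fun i hi η hη => ?_
    filter_upwards [spec_ge hf hB0 hB (hm i) (h i hi) hη] with ε h1
    simpa only [one_mul] using h1
  · refine family hf hB hρ hM J c hc (-1) (Or.inr rfl) fun i hi η hη => ?_
    filter_upwards [spec_le hf hB0 hB (hm i) (h i hi) hη] with ε h1
    have e : ((m i).sum fun x k => (k : ℝ) * (-1 * sg f φ (x, 0) ε)) =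
        -((m i).sum fun x k => (k : ℝ) * sg f φ (x, 0) ε) := by
      unfold Finsupp.sum
      rw [← Finset.sum_neg_distrib]
      exact Finset.sum_congr rfl fun x _ => by ring
    rw [e]
    linarith

/-- no newform, no deviation -/
theorem w_pos (hf : IsNewforms L f) (hB0 : 0 ≤ B) (hB : ∀ v, |φ v| ≤ B) {m : Ω →₀ ℕ}
    (hm : IsNewformSum f Z m) {δ : ℝ} (hδ : 0 < δ) (h : GE φ Z δ ∨ LE φ Z (-δ)) :
    0 < (m.sum fun _ k => k ^ 2) := by
  rcases Nat.eq_zero_or_pos (m.sum fun _ k => k ^ 2) with h0 | h0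
  · exfalso
    have hs : ∀ ε : ℝ, (m.sum fun x k => (k : ℝ) * sg f φ (x, 0) ε) = 0 := by
      intro ε
      unfold Finsupp.sum at h0 ⊢
      rw [Finset.sum_eq_zero_iff] at h0
      refine Finset.sum_eq_zero fun x hx => ?_
      have h1 : m x ^ 2 = 0 := h0 x hx
      rw [sq_eq_zero_iff] at h1
      change ((m x : ℕ) : ℝ) * sg f φ (x, 0) ε = 0
      rw [h1, Nat.cast_zero, zero_mul]
    rcases h with h | h
    · obtain ⟨ε, h1⟩ := (spec_ge hf hB0 hB hm h (half_pos hδ)).exists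
      rw [hs] at h1
      linarith
    · obtain ⟨ε, h1⟩ := (spec_le hf hB0 hB hm h (half_pos hδ)).exists
      rw [hs] at h1
      linarith
  · exact h0

/-- **The number of the exceptions.** -/
theorem main_count (hf : IsNewforms L f) (hB0 : 0 ≤ B) (hB : ∀ v, |φ v| ≤ B) (hρ : Square φ ρ)
    (hm : ∀ i, IsNewformSum f (W i) (m i))
    (hM : ∀ (x : Ω) (S : Finset ι), (∀ i ∈ S, m i x ≠ 0) → S.card ≤ M)
    (w : ℕ) {δ : ℝ} (hδ : 0 < δ) (P Q : ι → Prop) (hP : ∀ i, P i → GE φ (W i) δ)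
    (hQ : ∀ i, Q i → LE φ (W i) (-δ)) :
    {i | ((m i).sum fun _ k => k ^ 2) ≤ w ∧ (P i ∨ Q i)}.Finite ∧
    ({i | ((m i).sum fun _ k => k ^ 2) ≤ w ∧ (P i ∨ Q i)}.ncard : ℝ) ≤
      2 * (M * (Module.finrank ℚ K * ρ)) * w / δ ^ 2 := by
  classical
  set C : ℝ := M * (Module.finrank ℚ K * ρ) with hC
  have hC0 : 0 ≤ C := by
    have h1 := main_sum (W := W) hf hB0 hB hρ hm hM ∅ (fun _ => 0) (by simp) (Or.inl (by simp))
    simpa using h1
  have key1 : ∀ S : Finset ι, (∀ i ∈ S, ((m i).sum fun _ k => k ^ 2) ≤ w) →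
      ((∀ i ∈ S, GE φ (W i) δ) ∨ ∀ i ∈ S, LE φ (W i) (-δ)) →
      (S.card : ℝ) ≤ C * w / δ ^ 2 := by
    intro S hS h
    have h1 := main_sum hf hB0 hB hρ hm hM S (fun _ => δ) (fun _ _ => hδ.le) h
    have hpos : ∀ i ∈ S, 0 < ((m i).sum fun _ k => k ^ 2) := fun i hi =>
      w_pos hf hB0 hB (hm i) hδ (h.elim (fun h => Or.inl (h i hi)) fun h => Or.inr (h i hi))
    have h2 : ∑ i ∈ S, δ ^ 2 / (w : ℝ) ≤ ∑ i ∈ S, δ ^ 2 / ((m i).sum fun _ k => k ^ 2 : ℕ) := by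
      refine Finset.sum_le_sum fun i hi => ?_
      refine div_le_div_of_nonneg_left (by positivity) (by exact_mod_cast hpos i hi) ?_
      exact_mod_cast hS i hi
    rw [Finset.sum_const, nsmul_eq_mul] at h2
    rcases S.eq_empty_or_nonempty with h4 | ⟨i, hi⟩
    · rw [h4, Finset.card_empty, Nat.cast_zero]
      positivity
    · have hw : (0 : ℝ) < w := by exact_mod_cast lt_of_lt_of_le (hpos i hi) (hS i hi)
      rw [le_div_iff₀ (by positivity)]
      have h5 := h2.trans h1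
      rw [← mul_div_assoc, div_le_iff₀ hw] at h5
      exact h5
  have key : ∀ S : Finset ι, (∀ i ∈ S, ((m i).sum fun _ k => k ^ 2) ≤ w ∧ (P i ∨ Q i)) →
      (S.card : ℝ) ≤ 2 * C * w / δ ^ 2 := by
    intro S hS
    have h1 := key1 (S.filter fun i => P i)
      (fun i hi => (hS i (Finset.mem_filter.1 hi).1).1)
      (Or.inl fun i hi => hP i (Finset.mem_filter.1 hi).2)
    have h2 := key1 (S.filter fun i => ¬ P i)
      (fun i hi => (hS i (Finset.mem_filter.1 hi).1).1)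
      (Or.inr fun i hi => hQ i (((hS i (Finset.mem_filter.1 hi).1).2).resolve_left
        (Finset.mem_filter.1 hi).2))
    have h3 : (S.card : ℝ) = (S.filter fun i => P i).card + (S.filter fun i => ¬ P i).card := by
      exact_mod_cast (Finset.card_filter_add_card_filter_not (s := S) (fun i => P i)).symm
    have e : 2 * C * w / δ ^ 2 = C * w / δ ^ 2 + C * w / δ ^ 2 := by ring
    rw [h3, e]
    exact add_le_add h1 h2
  have hfin : {i | ((m i).sum fun _ k => k ^ 2) ≤ w ∧ (P i ∨ Q i)}.Finite := by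
    by_contra hinf
    obtain ⟨n, hn⟩ := exists_nat_gt (2 * C * w / δ ^ 2)
    obtain ⟨S, hS1, hS2⟩ := Set.Infinite.exists_subset_card_eq hinf n
    have h1 := key S fun x hx => hS1 hx
    rw [hS2] at h1
    linarith
  refine ⟨hfin, ?_⟩
  have h1 := key hfin.toFinset fun x hx => hfin.mem_toFinset.1 hx
  rwa [← Set.ncard_eq_toFinset_card _ hfin] at h1

end

end

end Pool.Agent.U187.TN
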