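import Pool.Agent.U187.TN.Avg

/-! Products of fibrations with varieties with modular Albanese variety. -/

set_option autoImplicit false

namespace Pool.Agent.U187.TN

open Filter Topology NumberField IsDedekindDomain CongruenceSubgroup
open scoped MatrixGroups
open Pool.Agent.W540.BE Pool.Agent.W353.L1 Pool.Agent.W401.Cheb
open Pool.Agent.W353.PV (Eig alp tF pick_spec)
open Pool.Agent.W353.EF (IsFrobenius)
open Pool.Agent.W353.SP (Bd Mn Hs EN mnN)
open Pool.Agent.W353.FB (EA mnA Fibration LocalValue IsTrace cone ValueAt IsSystem nagaoValue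
  average residue isTrace_unique average_unique)
open Pool.Agent.Y722.EP (eig_of nm_h)
open Pool.Agent.U187.MF (IsNewforms)
open Pool.Agent.U187.NS

section
variable {K : Type} [Field K] [NumberField K]

theorem nm_pos (v : HeightOneSpectrum (𝓞 K)) : (1 : ℝ) < nm K v := by
  have := two_le_nm v
  exact_mod_cast (by omega : 1 < nm K v)

/-- the trace on the first cohomology -/
theorem t₁_eq {Z : VarK K} {v : HeightOneSpectrum (𝓞 K)} {α : Fin Z.b₁ → ℂ}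
    (h : IsFrobenius Z.eqs Z.dim 1 v α) : t₁ Z v = (∑ k, α k).re / Real.sqrt (nm K v) := by
  have g1 : Eig Z.eqs Z.dim 1 v (alp Z.eqs Z.dim 1 Z.b₁ K v) := pick_spec ⟨α, h⟩
  have g2 := sum_unique (one_le_two Z) (eig_of h)
  have hq : (0 : ℝ) < nm K v := by linarith [nm_pos v]
  unfold t₁ tF tr
  rw [if_pos ⟨fun j => g1.norm j, g1.im (one_le_two Z)⟩, Real.rpow_neg hq.le, nm_h, ← g2,
    div_eq_mul_inv]

theorem comp_id {κ : Type} [Field κ] (φ : 𝓞 K →+* κ) {a : Algebra (𝓞 K) (𝓞 K)}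
    (ha : ∀ x, @algebraMap (𝓞 K) (𝓞 K) _ _ a x = x) :
    φ.comp (@algebraMap (𝓞 K) (𝓞 K) _ _ a) = φ :=
  RingHom.ext fun x => congrArg φ (ha x)

theorem at_self {P : LocalValue K} {v : HeightOneSpectrum (𝓞 K)} {z : ℝ} (h : ValueAt P v z)
    {κ : Type} [Field κ] {φ : 𝓞 K →+* κ} (hk : RingHom.ker φ = v.asIdeal)
    (hc : Nat.card κ = Ideal.absNorm v.asIdeal) : P κ φ z := by
  have h1 := h κ φ hk hc
  rw [comp_id φ] at h1
  · exact h1
  · exact fun _ => rfl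

theorem aux {s q x c : ℝ} (h : s * s = q) (hs : 0 < s) : c * s * (x / q) = c * x / s := by
  subst h
  field_simp

theorem aux2 {s q a c : ℝ} (h : s * s = q) (hs : 0 < s) : a / s * (c / s) = a * (c / q) := by
  subst h
  field_simp

/-- the data of a smooth connected variety at a prime -/
structure Data (Z : VarK K) (C : ℕ) (v : HeightOneSpectrum (𝓞 K)) (α : Fin Z.b₁ → ℂ)
    (β : ℕ → Multiset ℂ) : Prop where
  card : ∀ k, (β k).card ≤ C
  one : β 1 = Finset.univ.val.map α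
  top : β (2 * Z.dim) = {(Ideal.absNorm v.asIdeal : ℂ) ^ Z.dim}
  dual : β (2 * Z.dim - 1) =
      Finset.univ.val.map (fun j => (Ideal.absNorm v.asIdeal : ℂ) ^ (Z.dim - 1) * α j)
  norm : ∀ k, ∀ z ∈ β k, ‖z‖ = (Ideal.absNorm v.asIdeal : ℝ) ^ ((k : ℝ) / 2)
  count : ∀ (κ : Type) [Field κ] [Finite κ] (φ : 𝓞 K →+* κ) (e : ℕ), RingHom.ker φ = v.asIdeal →
      Nat.card κ = Ideal.absNorm v.asIdeal ^ e →
      (cone Z.eqs φ : ℂ) = ((Ideal.absNorm v.asIdeal : ℂ) ^ e - 1) *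
        ∑ k ∈ Finset.range (2 * Z.dim + 1), (-1 : ℂ) ^ k * ((β k).map (fun z => z ^ e)).sum

theorem IsSmoothConnected.data {Z : VarK K} (h : IsSmoothConnected Z) :
    ∃ C : ℕ, ∀ᶠ v : HeightOneSpectrum (𝓞 K) in cofinite, ∃ (α : Fin Z.b₁ → ℂ)
      (β : ℕ → Multiset ℂ), Data Z C v α β := by
  obtain ⟨C, hC⟩ := h
  refine ⟨C, hC.mono fun v hv => ?_⟩
  obtain ⟨α, β, h1, h2, h3, h4, h5, h6⟩ := hv
  exact ⟨α, β, h1, h2, h3, h4, h5, h6⟩

variable {Z : VarK K} {C : ℕ} {v : HeightOneSpectrum (𝓞 K)} {α : Fin Z.b₁ → ℂ}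
  {β : ℕ → Multiset ℂ}

theorem Data.frob (h : Data Z C v α β) : IsFrobenius Z.eqs Z.dim 1 v α := by
  refine ⟨β, h.one, h.norm, fun κ _ _ φ e hk hc => ?_⟩
  rw [comp_id φ]
  · exact h.count κ φ e hk hc
  · exact fun _ => rfl

theorem norm_multiset {β : Multiset ℂ} {C : ℕ} {r : ℝ} (hr : 0 ≤ r) (hc : β.card ≤ C)
    (h : ∀ z ∈ β, ‖z‖ ≤ r) : ‖β.sum‖ ≤ C * r := by
  have h5 : ‖β.sum‖ ≤ (β.map fun x => ‖x‖).sum := norm_multiset_sum_le β
  refine h5.trans ?_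
  have h6 : (β.map fun x => ‖x‖).sum ≤ (β.map fun x => ‖x‖).card • r := by
    refine Multiset.sum_le_card_nsmul _ _ fun x hx => ?_
    obtain ⟨y, hy, rfl⟩ := Multiset.mem_map.1 hx
    exact h y hy
  rw [Multiset.card_map, nsmul_eq_mul] at h6
  refine h6.trans (mul_le_mul_of_nonneg_right ?_ hr)
  exact_mod_cast hc

/-- **The number of points.** -/
theorem Data.points (h : Data Z C v α β) {κ : Type} [Field κ] [Finite κ] {φ : 𝓞 K →+* κ}
    (hk : RingHom.ker φ = v.asIdeal) (hc : Nat.card κ = Ideal.absNorm v.asIdeal) :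
    |(cone Z.eqs φ : ℝ) / ((Nat.card κ : ℝ) - 1) / (Nat.card κ : ℝ) ^ Z.dim - 1 +
      (∑ k, α k).re / nm K v| ≤ (2 * Z.dim + 1 : ℕ) * C / nm K v := by
  obtain ⟨d, hd⟩ : ∃ d, Z.dim = d + 1 := ⟨Z.dim - 1, by have := Z.dim_pos; omega⟩
  have hq1 : (1 : ℝ) < nm K v := nm_pos v
  set q : ℝ := (nm K v : ℝ) with hq
  have hq0 : 0 < q := by linarith
  have hqe : (Nat.card κ : ℝ) = q := by rw [hc]; rfl
  have hqc : ((Ideal.absNorm v.asIdeal : ℕ) : ℂ) = (q : ℂ) := by rw [hq]; simp [nm]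
  have h1 := h.count κ φ 1 hk (by rw [pow_one]; exact hc)
  simp only [pow_one, Multiset.map_id'] at h1
  rw [hqc, hd, show 2 * (d + 1) + 1 = (2 * d + 1) + 1 + 1 by ring, Finset.sum_range_succ,
    Finset.sum_range_succ] at h1
  have h2 : (β (2 * d + 1)).sum = (q : ℂ) ^ d * ∑ k, α k := by
    have h3 := h.dual
    rw [hd, show 2 * (d + 1) - 1 = 2 * d + 1 by omega, show d + 1 - 1 = d by omega, hqc] at h3
    rw [h3, Finset.mul_sum]
    rfl
  have h3 : (β (2 * d + 1 + 1)).sum = (q : ℂ) ^ (d + 1) := by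
    have h4 := h.top
    rw [hd, show 2 * (d + 1) = 2 * d + 1 + 1 by ring, hqc] at h4
    rw [h4, Multiset.sum_singleton]
  set Low : ℂ := ∑ k ∈ Finset.range (2 * d + 1), (-1 : ℂ) ^ k * (β k).sum with hLow
  have hLow' : ‖Low‖ ≤ ((2 * d + 1 : ℕ) : ℝ) * (C * q ^ d) := by
    rw [hLow]
    refine (norm_sum_le _ _).trans ?_
    refine (Finset.sum_le_card_nsmul _ _ (C * q ^ d) fun k hk => ?_).trans (le_of_eq ?_)
    · rw [norm_mul, norm_pow, norm_neg, norm_one, one_pow, one_mul]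
      refine norm_multiset (by positivity) (h.card k) fun z hz => ?_
      rw [h.norm k z hz]
      have hk' : k ≤ 2 * d := by
        have := Finset.mem_range.1 hk
        omega
      have e : (q : ℝ) ^ d = q ^ ((d : ℕ) : ℝ) := (Real.rpow_natCast q d).symm
      rw [e]
      refine Real.rpow_le_rpow_of_exponent_le hq1.le ?_
      have hk'' : (k : ℝ) ≤ 2 * d := by exact_mod_cast hk'
      linarith
    · rw [Finset.card_range, nsmul_eq_mul]
  rw [h2, h3, show ((-1 : ℂ)) ^ (2 * d + 1) = -1 by rw [pow_succ, pow_mul]; simp,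
    show ((-1 : ℂ)) ^ (2 * d + 1 + 1) = 1 by rw [pow_succ, pow_succ, pow_mul]; simp] at h1
  have hq1c : ((q : ℂ) - 1) ≠ 0 := by
    intro h0
    have h4 : q = 1 := by exact_mod_cast sub_eq_zero.1 h0
    linarith
  have hqc0 : (q : ℂ) ≠ 0 := by exact_mod_cast hq0.ne'
  have key : (((cone Z.eqs φ : ℝ) / (q - 1) / q ^ Z.dim - 1 : ℝ) : ℂ) + (∑ k, α k) / (q : ℂ) =
      Low / (q : ℂ) ^ (d + 1) := by
    push_cast
    rw [h1, hd]
    field_simp
    ring
  have key2 : (cone Z.eqs φ : ℝ) / ((Nat.card κ : ℝ) - 1) / (Nat.card κ : ℝ) ^ Z.dim - 1 +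
      (∑ k, α k).re / nm K v = (Low / (q : ℂ) ^ (d + 1)).re := by
    rw [← key, Complex.add_re, Complex.ofReal_re, hqe]
    congr 1
    rw [Complex.div_ofReal_re]
  rw [key2]
  refine (Complex.abs_re_le_norm _).trans ?_
  rw [norm_div, norm_pow, Complex.norm_real, Real.norm_eq_abs, abs_of_pos hq0,
    div_le_iff₀ (by positivity)]
  refine hLow'.trans ?_
  have e : ((2 * Z.dim + 1 : ℕ) : ℝ) * C / nm K v * q ^ (d + 1) =
      ((2 * Z.dim + 1 : ℕ) : ℝ) * (C * q ^ d) := by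
    rw [← hq, pow_succ]
    field_simp
  rw [e]
  refine mul_le_mul_of_nonneg_right ?_ (by positivity)
  rw [hd]
  push_cast
  linarith

variable {f : Fibration K} {n : ℕ} {B : Set (MvPolynomial (Fin n) (𝓞 K))} {g : ℕ}

/-- the values for the product -/
theorem value (hg : 1 ≤ g) (h : Data Z C v α β) {b b' A : ℝ}
    (hb : ValueAt (nagaoValue f B g) v b) (hb' : ValueAt (productNagao f B g Z) v b')
    (hA : ValueAt (averageValue f) v A) :
    |b' - b - A / Real.sqrt (nm K v) * t₁ Z v| ≤ |A| * ((2 * Z.dim + 1 : ℕ) * C / nm K v) := by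
  obtain ⟨κ, _, _, φ, hk, hc⟩ := Pool.Agent.W353.PV.exists_ext v 1 le_rfl
  rw [pow_one] at hc
  obtain ⟨A1, a1, hA1, ha1, rfl⟩ := at_self hb hk hc
  obtain ⟨A2, a2, hA2, ha2, rfl⟩ := at_self hb' hk hc
  have h0 : f.IsAverage 1 φ A := at_self hA hk hc
  have hr := f.one_le
  have e1 : a1 = a2 := isTrace_unique (by omega) ha1 ha2
  have e2 : A1 = A := average_unique f (by omega) hA1 h0
  obtain ⟨a, h1, h2⟩ := hA2
  have e3 : A = ((Nat.card κ : ℝ) ^ f.m)⁻¹ * ∑ᶠ t ∈ f.points φ, a t := by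
    obtain ⟨a', h1', h2'⟩ := h0
    rw [h2']
    congr 1
    exact finsum_mem_congr rfl fun t ht => isTrace_unique (by omega) (h1' t ht) (h1 t ht)
  have hq1 : (1 : ℝ) < nm K v := nm_pos v
  have hqe : (Nat.card κ : ℝ) = nm K v := by rw [hc]; rfl
  have h3 := h.points hk hc
  set N : ℝ := (cone Z.eqs φ : ℝ) / ((Nat.card κ : ℝ) - 1) with hN
  have e4 : A2 = A * (N / (Nat.card κ : ℝ) ^ Z.dim) := by
    rw [h2, e3, pow_add]
    have hq0 : (Nat.card κ : ℝ) ≠ 0 := by rw [hqe]; linarith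
    field_simp
  have e5 : t₁ Z v = (∑ k, α k).re / Real.sqrt (nm K v) := t₁_eq h.frob
  have hs : Real.sqrt (nm K v) * Real.sqrt (nm K v) = nm K v := Real.mul_self_sqrt (by linarith)
  have hs0 : 0 < Real.sqrt (nm K v) := Real.sqrt_pos.2 (by linarith)
  have e6 : a2 - A2 - (a1 - A1) - A / Real.sqrt (nm K v) * t₁ Z v =
      -(A * (N / (Nat.card κ : ℝ) ^ Z.dim - 1 + (∑ k, α k).re / nm K v)) := by
    have e7 : A / Real.sqrt (nm K v) * t₁ Z v = A * ((∑ k, α k).re / nm K v) := by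
      rw [e5]
      exact aux2 hs hs0
    rw [e7, e1, e2, e4]
    ring
  rw [e6, abs_neg, abs_mul]
  exact mul_le_mul_of_nonneg_left h3 (abs_nonneg _)

/-- the norms tend to infinity -/
theorem tendsto_nm : Tendsto (fun v : HeightOneSpectrum (𝓞 K) => (nm K v : ℝ)) cofinite atTop := by
  rw [tendsto_atTop]
  intro b
  rw [Filter.eventually_cofinite]
  refine ((upto K ⌈b⌉₊).finite_toSet).subset fun v hv => ?_
  rw [Set.mem_ofPred_eq, not_le] at hv
  rw [Finset.mem_coe, mem_upto]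
  have h4 : (nm K v : ℝ) < ⌈b⌉₊ := hv.trans_le (Nat.le_ceil b)
  exact_mod_cast h4.le

theorem small (c : ℝ) {η : ℝ} (hη : 0 < η) :
    ∀ᶠ v : HeightOneSpectrum (𝓞 K) in cofinite, c / Real.sqrt (nm K v) ≤ η := by
  have h1 : Tendsto (fun v : HeightOneSpectrum (𝓞 K) => c / Real.sqrt (nm K v)) cofinite (𝓝 0) :=
    tendsto_const_nhds.div_atTop (Real.tendsto_sqrt_atTop.comp tendsto_nm)
  exact (h1.eventually_lt_const hη).mono fun v hv => hv.le

/-- the normalised fibre averages -/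
noncomputable def phi (R : Finset (HeightOneSpectrum (𝓞 K))) (A : HeightOneSpectrum (𝓞 K) → ℝ) :
    HeightOneSpectrum (𝓞 K) → ℝ := off R fun v => A v / Real.sqrt (nm K v)

theorem bd_phi {R : Finset (HeightOneSpectrum (𝓞 K))} {A : HeightOneSpectrum (𝓞 K) → ℝ}
    (hA : IsAverages f R A) : Bd (phi R A) := by
  obtain ⟨-, C, hC⟩ := hA
  refine bd_off ⟨C, fun v hv => ?_⟩
  have hs0 : 0 < Real.sqrt (nm K v) := Real.sqrt_pos.2 (by linarith [nm_pos v])
  rw [abs_div, abs_of_pos hs0, div_le_iff₀ hs0]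
  exact hC v hv

variable {ι : Type} {l : Filter ι} {E : ι → (HeightOneSpectrum (𝓞 K) → ℝ) → ℝ}
  {av : Finset (HeightOneSpectrum (𝓞 K)) → (HeightOneSpectrum (𝓞 K) → ℝ) → ι → ℝ}

/-- **The deviation as an average.** -/
theorem dev (h : IsAvg l E) (hav : ∀ R b t, Bd t → (∀ v, v ∉ R → b v = t v) →
      Tendsto (fun i => av R b i - E i t) l (𝓝 0)) (hg : 1 ≤ g) (hZ : IsSmoothConnected Z)
    {R₀ : Finset (HeightOneSpectrum (𝓞 K))} {A : HeightOneSpectrum (𝓞 K) → ℝ}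
    (hA : IsAverages f R₀ A) {R R' : Finset (HeightOneSpectrum (𝓞 K))}
    {b b' : HeightOneSpectrum (𝓞 K) → ℝ} (hb : IsSystem (nagaoValue f B g) R b)
    (hb' : IsSystem (productNagao f B g Z) R' b') {D : ι → ℝ}
    (hD : ∀ i, D i = av R' b' i - av R b i) :
    Tendsto (fun i => D i - E i fun v => phi R₀ A v * t₁ Z v) l (𝓝 0) := by
  obtain ⟨C, hC⟩ := hZ.data
  obtain ⟨CA, hCA⟩ := hA.2
  have h1 := hav R b (off R b) (bd_off hb.2) fun v hv => (off_of hv).symm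
  have h2 := hav R' b' (off R' b') (bd_off hb'.2) fun v hv => (off_of hv).symm
  have h3 := h.diff (t := off R b) (t' := off R' b') (ψ := fun v => phi R₀ A v * t₁ Z v)
    (bd_off hb.2) (bd_off hb'.2) ((bd_phi hA).mul ⟨Z.b₁, t₁_le Z⟩) (fun η hη => by
      filter_upwards [hC, R.finite_toSet.eventually_cofinite_notMem,
        R'.finite_toSet.eventually_cofinite_notMem, R₀.finite_toSet.eventually_cofinite_notMem,
        small (K := K) (|CA| * ((2 * Z.dim + 1 : ℕ) * C)) hη] with v hv hR hR' hR₀ hs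
      obtain ⟨α, β, hd⟩ := hv
      have hR1 : v ∉ R := fun hh => hR hh
      have hR1' : v ∉ R' := fun hh => hR' hh
      have hR₀1 : v ∉ R₀ := fun hh => hR₀ hh
      have h4 := value hg hd (hb.1 v hR1) (hb'.1 v hR1') (hA.1 v hR₀1)
      unfold phi
      rw [off_of hR1, off_of hR1', off_of hR₀1]
      refine h4.trans (le_trans ?_ hs)
      have hs0 : 0 < Real.sqrt (nm K v) := Real.sqrt_pos.2 (by linarith [nm_pos v])
      have hs1 : Real.sqrt (nm K v) * Real.sqrt (nm K v) = nm K v :=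
        Real.mul_self_sqrt (by linarith [nm_pos v])
      have h5 : |A v| ≤ |CA| * Real.sqrt (nm K v) :=
        (hCA v hR₀1).trans (mul_le_mul_of_nonneg_right (le_abs_self _) hs0.le)
      calc |A v| * ((2 * Z.dim + 1 : ℕ) * C / nm K v) ≤
          |CA| * Real.sqrt (nm K v) * ((2 * Z.dim + 1 : ℕ) * C / nm K v) := by
            refine mul_le_mul_of_nonneg_right h5 ?_
            have := nm_pos v
            positivity
        _ = |CA| * ((2 * Z.dim + 1 : ℕ) * C) / Real.sqrt (nm K v) := aux hs1 hs0)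
  have h4 := (h2.sub h1).add h3
  rw [sub_zero, add_zero] at h4
  refine h4.congr fun i => ?_
  rw [hD]
  ring

variable {Ω : Type} {L : Ω → ℕ} {F : ∀ x, CuspForm (Gamma0 (L x) : Subgroup (GL (Fin 2) ℝ)) 2}
  {I : Type} {W : I → VarK K} {m : I → Ω →₀ ℕ} {M : ℕ} {ρ : ℝ}

/-- **The law for families.** -/
theorem law (hF : IsNewforms L F) (h : IsAvg l E)
    (hav : ∀ R b t, Bd t → (∀ v, v ∉ R → b v = t v) →
      Tendsto (fun i => av R b i - E i t) l (𝓝 0))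
    {R₀ : Finset (HeightOneSpectrum (𝓞 K))} {A : HeightOneSpectrum (𝓞 K) → ℝ}
    (hA : IsAverages f R₀ A)
    (hρ : UpperLE l (av R₀ fun v => A v ^ 2 / (Ideal.absNorm v.asIdeal : ℝ)) ρ)
    (hm : ∀ i, IsNewformSum F (W i) (m i))
    (hM : ∀ (x : Ω) (S : Finset I), (∀ i ∈ S, m i x ≠ 0) → S.card ≤ M)
    {D : I → ι → ℝ}
    (hD : ∀ i, Tendsto (fun j => D i j - E j fun v => phi R₀ A v * t₁ (W i) v) l (𝓝 0)) :
    (∀ (J : Finset I) (c : I → ℝ), (∀ i ∈ J, 0 ≤ c i) →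
      ((∀ i ∈ J, LowerGE l (D i) (c i)) ∨ ∀ i ∈ J, UpperLE l (D i) (-c i)) →
      ∑ i ∈ J, c i ^ 2 / ((m i).sum fun _ k => k ^ 2 : ℕ) ≤ M * (Module.finrank ℚ K * ρ)) ∧
    ∀ (w : ℕ) (δ : ℝ), 0 < δ →
      {i | ((m i).sum fun _ k => k ^ 2) ≤ w ∧
        (LowerGE l (D i) δ ∨ UpperLE l (D i) (-δ))}.Finite ∧
      ({i | ((m i).sum fun _ k => k ^ 2) ≤ w ∧
        (LowerGE l (D i) δ ∨ UpperLE l (D i) (-δ))}.ncard : ℝ) ≤
        2 * (M * (Module.finrank ℚ K * ρ)) * w / δ ^ 2 := by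
  have hb := bd_phi hA
  have hsq : Square (phi R₀ A) ρ := by
    refine h.square hb (S := av R₀ fun v => A v ^ 2 / (Ideal.absNorm v.asIdeal : ℝ)) ?_ hρ
    have hb2 : Bd fun v => phi R₀ A v ^ 2 := by
      obtain ⟨B, hB⟩ := hb.mul hb
      refine ⟨B, fun v => ?_⟩
      have h2 := hB v
      simp only at h2 ⊢
      rw [sq]
      exact h2
    refine hav R₀ _ _ hb2 fun v hv => ?_
    unfold phi
    rw [off_of hv, div_pow, Real.sq_sqrt (by linarith [nm_pos v])]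
    rfl
  obtain ⟨B, hB⟩ := hb
  have hB' : ∀ v, |phi R₀ A v| ≤ |B| := fun v => (hB v).trans (le_abs_self B)
  have hge : ∀ i c, LowerGE l (D i) c → GE (phi R₀ A) (W i) c := fun i c hc =>
    h.ge ⟨B, hB⟩ (hD i) hc
  have hle : ∀ i c, UpperLE l (D i) c → LE (phi R₀ A) (W i) c := fun i c hc =>
    h.le ⟨B, hB⟩ (hD i) hc
  constructor
  · intro J c hc h1
    refine main_sum hF (abs_nonneg B) hB' hsq hm hM J c hc ?_
    rcases h1 with h1 | h1
    · exact Or.inl fun i hi => hge i _ (h1 i hi)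
    · exact Or.inr fun i hi => hle i _ (h1 i hi)
  · intro w δ hδ
    exact main_count hF (abs_nonneg B) hB' hsq hm hM w hδ (fun i => LowerGE l (D i) δ)
      (fun i => UpperLE l (D i) (-δ)) (fun i hi => hge i _ hi) fun i hi => hle i _ hi

/-- natural averages -/
theorem natural (hF : IsNewforms L F) (hg : 1 ≤ g)
    {R₀ : Finset (HeightOneSpectrum (𝓞 K))} {A : HeightOneSpectrum (𝓞 K) → ℝ}
    (hA : IsAverages f R₀ A)
    (hρ : UpperLE atTop (average R₀ fun v => A v ^ 2 / (Ideal.absNorm v.asIdeal : ℝ)) ρ)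
    (hW : ∀ i, IsSmoothConnected (W i)) (hm : ∀ i, IsNewformSum F (W i) (m i))
    (hM : ∀ (x : Ω) (S : Finset I), (∀ i ∈ S, m i x ≠ 0) → S.card ≤ M)
    {D : I → ℕ → ℝ} (hD : ∀ i, IsNagaoDeviation f B g (W i) (D i)) :
    (∀ (J : Finset I) (c : I → ℝ), (∀ i ∈ J, 0 ≤ c i) →
      ((∀ i ∈ J, LowerGE atTop (D i) (c i)) ∨ ∀ i ∈ J, UpperLE atTop (D i) (-c i)) →
      ∑ i ∈ J, c i ^ 2 / ((m i).sum fun _ k => k ^ 2 : ℕ) ≤ M * (Module.finrank ℚ K * ρ)) ∧
    ∀ (w : ℕ) (δ : ℝ), 0 < δ →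
      {i | ((m i).sum fun _ k => k ^ 2) ≤ w ∧
        (LowerGE atTop (D i) δ ∨ UpperLE atTop (D i) (-δ))}.Finite ∧
      ({i | ((m i).sum fun _ k => k ^ 2) ≤ w ∧
        (LowerGE atTop (D i) δ ∨ UpperLE atTop (D i) (-δ))}.ncard : ℝ) ≤
        2 * (M * (Module.finrank ℚ K * ρ)) * w / δ ^ 2 := by
  refine law hF isAvgN (av := fun R b => average R b) (fun R b t ht h => natS ht h) hA hρ hm hM
    fun i => ?_
  obtain ⟨R, R', b, b', h1, h2, h3⟩ := hD i
  exact dev isAvgN (av := fun R b => average R b) (fun R b t ht h => natS ht h) hg (hW i) hA h1 h2 h3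

/-- analytic averages -/
theorem analytic (hF : IsNewforms L F) (hg : 1 ≤ g)
    {R₀ : Finset (HeightOneSpectrum (𝓞 K))} {A : HeightOneSpectrum (𝓞 K) → ℝ}
    (hA : IsAverages f R₀ A)
    (hρ : UpperLE (𝓝[>] 1) (residue R₀ fun v => A v ^ 2 / (Ideal.absNorm v.asIdeal : ℝ)) ρ)
    (hW : ∀ i, IsSmoothConnected (W i)) (hm : ∀ i, IsNewformSum F (W i) (m i))
    (hM : ∀ (x : Ω) (S : Finset I), (∀ i ∈ S, m i x ≠ 0) → S.card ≤ M)
    {D : I → ℝ → ℝ} (hD : ∀ i, IsAnalyticDeviation f B g (W i) (D i)) :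
    (∀ (J : Finset I) (c : I → ℝ), (∀ i ∈ J, 0 ≤ c i) →
      ((∀ i ∈ J, LowerGE (𝓝[>] 1) (D i) (c i)) ∨ ∀ i ∈ J, UpperLE (𝓝[>] 1) (D i) (-c i)) →
      ∑ i ∈ J, c i ^ 2 / ((m i).sum fun _ k => k ^ 2 : ℕ) ≤ M * (Module.finrank ℚ K * ρ)) ∧
    ∀ (w : ℕ) (δ : ℝ), 0 < δ →
      {i | ((m i).sum fun _ k => k ^ 2) ≤ w ∧
        (LowerGE (𝓝[>] 1) (D i) δ ∨ UpperLE (𝓝[>] 1) (D i) (-δ))}.Finite ∧
      ({i | ((m i).sum fun _ k => k ^ 2) ≤ w ∧
        (LowerGE (𝓝[>] 1) (D i) δ ∨ UpperLE (𝓝[>] 1) (D i) (-δ))}.ncard : ℝ) ≤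
        2 * (M * (Module.finrank ℚ K * ρ)) * w / δ ^ 2 := by
  refine law hF isAvgA (av := fun R b => residue R b) (fun R b t ht h => anaS ht h) hA hρ hm hM
    fun i => ?_
  obtain ⟨R, R', b, b', h1, h2, h3⟩ := hD i
  exact dev isAvgA (av := fun R b => residue R b) (fun R b t ht h => anaS ht h) hg (hW i) hA h1 h2 h3

end

end Pool.Agent.U187.TN
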