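import Pool.Agent.U187.TN.Two

/-! The laws for products of fibrations with varieties with modular Albanese variety. -/

set_option autoImplicit false

namespace Pool.Agent.U187.TN

open Filter Topology NumberField IsDedekindDomain CongruenceSubgroup
open scoped MatrixGroups
open Pool.Agent.W540.BE Pool.Agent.W353.L1 Pool.Agent.W401.Cheb
open Pool.Agent.W353.SP (Bd Mn Hs EN mnN)
open Pool.Agent.W353.FB (EA mnA Fibration LocalValue IsSystem nagaoValue degreeTwoValue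
  average residue)
open Pool.Agent.U187.MF (IsNewforms)
open Pool.Agent.U187.NS

section
variable {K : Type} [Field K] [NumberField K] {f : Fibration K}
  {ι : Type} {l : Filter ι} {E : ι → (HeightOneSpectrum (𝓞 K) → ℝ) → ℝ}
  {av : Finset (HeightOneSpectrum (𝓞 K)) → (HeightOneSpectrum (𝓞 K) → ℝ) → ι → ℝ}
  {Ω : Type} {L : Ω → ℕ} {F : ∀ x, CuspForm (Gamma0 (L x) : Subgroup (GL (Fin 2) ℝ)) 2}
  {ρ : ℝ}

/-- The conclusion, for averages along the filter `l` and deviations `Dev Z D`. -/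
def Law (F : ∀ x, CuspForm (Gamma0 (L x) : Subgroup (GL (Fin 2) ℝ)) 2) (l : Filter ι)
    (Dev : VarK K → (ι → ℝ) → Prop) (ρ : ℝ) : Prop :=
  (∃ s : Ω → ℝ → ℝ,
    (∀ (J : Finset Ω) (η : ℝ), 0 < η → ∀ᶠ ε : ℝ in 𝓝[>] 0,
      ∑ x ∈ J, (max (s x ε) 0) ^ 2 ≤ Module.finrank ℚ K * ρ + η ∧
      ∑ x ∈ J, (max (-s x ε) 0) ^ 2 ≤ Module.finrank ℚ K * ρ + η) ∧
    ∀ (Z : VarK K) (m : Ω →₀ ℕ), IsSmoothConnected Z → IsNewformSum F Z m →
      ∀ D, Dev Z D → ∀ c : ℝ,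
      (LowerGE l D c → ∀ η : ℝ, 0 < η → ∀ᶠ ε : ℝ in 𝓝[>] 0,
        c - η ≤ m.sum fun x k => (k : ℝ) * s x ε) ∧
      (UpperLE l D c → ∀ η : ℝ, 0 < η → ∀ᶠ ε : ℝ in 𝓝[>] 0,
        (m.sum fun x k => (k : ℝ) * s x ε) ≤ c + η)) ∧
  ∀ (I : Type) (Z : I → VarK K) (m : I → Ω →₀ ℕ) (M : ℕ), (∀ i, IsSmoothConnected (Z i)) →
    (∀ i, IsNewformSum F (Z i) (m i)) →
    (∀ (x : Ω) (S : Finset I), (∀ i ∈ S, m i x ≠ 0) → S.card ≤ M) →
    ∀ D : I → ι → ℝ, (∀ i, Dev (Z i) (D i)) →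
    (∀ (J : Finset I) (c : I → ℝ), (∀ i ∈ J, 0 ≤ c i) →
      ((∀ i ∈ J, LowerGE l (D i) (c i)) ∨ ∀ i ∈ J, UpperLE l (D i) (-c i)) →
      ∑ i ∈ J, c i ^ 2 / ((m i).sum fun _ k => k ^ 2 : ℕ) ≤ M * (Module.finrank ℚ K * ρ)) ∧
    ∀ (w : ℕ) (δ : ℝ), 0 < δ →
      {i | ((m i).sum fun _ k => k ^ 2) ≤ w ∧
        (LowerGE l (D i) δ ∨ UpperLE l (D i) (-δ))}.Finite ∧
      ({i | ((m i).sum fun _ k => k ^ 2) ≤ w ∧
        (LowerGE l (D i) δ ∨ UpperLE l (D i) (-δ))}.ncard : ℝ) ≤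
        2 * (M * (Module.finrank ℚ K * ρ)) * w / δ ^ 2

theorem law_of {Dev : VarK K → (ι → ℝ) → Prop} (hF : IsNewforms L F) (h : IsAvg l E)
    (hav : ∀ R b t, Bd t → (∀ v, v ∉ R → b v = t v) →
      Tendsto (fun i => av R b i - E i t) l (𝓝 0))
    {R₀ : Finset (HeightOneSpectrum (𝓞 K))} {A : HeightOneSpectrum (𝓞 K) → ℝ}
    (hA : IsAverages f R₀ A)
    (hρ : UpperLE l (av R₀ fun v => A v ^ 2 / (Ideal.absNorm v.asIdeal : ℝ)) ρ)
    (hDev : ∀ Z D, IsSmoothConnected Z → Dev Z D →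
      Tendsto (fun j => D j - E j fun v => phi R₀ A v * t₁ Z v) l (𝓝 0)) :
    Law F l Dev ρ := by
  have hb := bd_phi hA
  have hsq : Square (phi R₀ A) ρ := by
    refine h.square hb (S := av R₀ fun v => A v ^ 2 / (Ideal.absNorm v.asIdeal : ℝ)) ?_ hρ
    have hb2 : Bd fun v => phi R₀ A v ^ 2 := by
      obtain ⟨B, hB⟩ := hb.mul hb
      refine ⟨B, fun v => ?_⟩
      have h2 := hB v
      simp only at h2 ⊢
      rw [sq]
      exact h2
    refine hav R₀ _ _ hb2 fun v hv => ?_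
    unfold phi
    rw [off_of hv, div_pow, Real.sq_sqrt (by linarith [nm_pos v])]
    rfl
  refine ⟨?_, fun I Z m M hZ hm hM D hD =>
    law hF h hav hA hρ hm hM fun i => hDev _ _ (hZ i) (hD i)⟩
  obtain ⟨B, hB⟩ := hb
  have hB' : ∀ v, |phi R₀ A v| ≤ |B| := fun v => (hB v).trans (le_abs_self B)
  refine ⟨fun x ε => sg F (phi R₀ A) (x, 0) ε, fun J η hη => sg_bessel hF hB' hsq J hη,
    fun Z m hZ hm D hD c => ?_⟩
  have hd := hDev Z D hZ hD
  exact ⟨fun hc η hη => spec_ge hF (abs_nonneg B) hB' hm (h.ge ⟨B, hB⟩ hd hc) hη,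
    fun hc η hη => spec_le hF (abs_nonneg B) hB' hm (h.le ⟨B, hB⟩ hd hc) hη⟩

variable {n : ℕ} {B : Set (MvPolynomial (Fin n) (𝓞 K))} {g : ℕ}
  {R₀ : Finset (HeightOneSpectrum (𝓞 K))} {A : HeightOneSpectrum (𝓞 K) → ℝ}

theorem natural' (hF : IsNewforms L F) (hg : 1 ≤ g) (hA : IsAverages f R₀ A)
    (hρ : UpperLE atTop (average R₀ fun v => A v ^ 2 / (Ideal.absNorm v.asIdeal : ℝ)) ρ) :
    Law F atTop (IsNagaoDeviation f B g) ρ :=
  law_of hF isAvgN (av := fun R b => average R b) (fun R b t ht h => natS ht h) hA hρ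
    fun Z D hZ hD => by
      obtain ⟨R, R', b, b', h1, h2, h3⟩ := hD
      exact dev isAvgN (av := fun R b => average R b) (fun R b t ht h => natS ht h) hg hZ hA
        h1 h2 h3

theorem analytic' (hF : IsNewforms L F) (hg : 1 ≤ g) (hA : IsAverages f R₀ A)
    (hρ : UpperLE (𝓝[>] 1) (residue R₀ fun v => A v ^ 2 / (Ideal.absNorm v.asIdeal : ℝ)) ρ) :
    Law F (𝓝[>] 1) (IsAnalyticDeviation f B g) ρ :=
  law_of hF isAvgA (av := fun R b => residue R b) (fun R b t ht h => anaS ht h) hA hρ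
    fun Z D hZ hD => by
      obtain ⟨R, R', b, b', h1, h2, h3⟩ := hD
      exact dev isAvgA (av := fun R b => residue R b) (fun R b t ht h => anaS ht h) hg hZ hA
        h1 h2 h3

theorem analytic2' (hF : IsNewforms L F) (hA : IsAverages f R₀ A)
    (hρ : UpperLE (𝓝[>] 1) (residue R₀ fun v => A v ^ 2 / (Ideal.absNorm v.asIdeal : ℝ)) ρ) :
    Law F (𝓝[>] 1) (IsTwoDeviation f) ρ :=
  law_of hF isAvgA (av := fun R b => residue R b) (fun R b t ht h => anaS ht h) hA hρ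
    fun Z D hZ hD => by
      obtain ⟨R, R', R'', b, b', b'', h1, h2, h3, h4⟩ := hD
      exact dev2 isAvgA (av := fun R b => residue R b) (fun R b t ht h => anaS ht h) hZ hA
        h1 h2 h3 h4

end

end Pool.Agent.U187.TN
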