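import Pool.Agent.U187.TN.Fib
import Pool.Agent.U187.TN.Defs2

/-! Fibre averages on `H²` for products with a constant variety. -/

set_option autoImplicit false

namespace Pool.Agent.U187.TN

open Filter Topology NumberField IsDedekindDomain CongruenceSubgroup
open scoped MatrixGroups
open Pool.Agent.W540.BE Pool.Agent.W353.L1 Pool.Agent.W401.Cheb
open Pool.Agent.W353.EF (IsFrobenius)
open Pool.Agent.W353.SP (Bd Mn Hs EN mnN)
open Pool.Agent.W353.FB (EA mnA Fibration LocalValue IsTrace cone ValueAt IsSystem degreeTwoValue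
  average residue isTrace_unique average_unique)
open Pool.Agent.Y722.EP (eig_of nm_h)
open Pool.Agent.U187.MF (IsNewforms)
open Pool.Agent.U187.NS

section
variable {K : Type} [Field K] [NumberField K] {Z : VarK K} {C : ℕ}
  {v : HeightOneSpectrum (𝓞 K)} {α : Fin Z.b₁ → ℂ} {β : ℕ → Multiset ℂ} {f : Fibration K}

/-- the trace at the residue field -/
theorem Data.trace (h : Data Z C v α β) {κ : Type} [Field κ] [Finite κ] {φ : 𝓞 K →+* κ}
    (hk : RingHom.ker φ = v.asIdeal) (hc : Nat.card κ = Ideal.absNorm v.asIdeal) :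
    IsTrace Z.eqs Z.dim 1 φ (∑ k, α k).re := by
  have him := (eig_of h.frob).im (one_le_two Z)
  refine ⟨β, ?_, fun k z hz => by rw [hc]; exact h.norm k z hz, fun κ' _ _ θ e he => ?_⟩
  · rw [h.one]
    have e1 : (Finset.univ.val.map α).sum = ∑ k, α k := rfl
    rw [e1]
    exact Complex.ext (by simp) (by simpa using him)
  · rw [hc] at he ⊢
    refine h.count κ' (θ.comp φ) e ?_ he
    rw [← hk, RingHom.ker_comp_of_injective _ θ.injective]

/-- the values for the product -/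
theorem value2 (h : Data Z C v α β) {b b' b'' A : ℝ}
    (hb : ValueAt (degreeTwoValue f) v b) (hb' : ValueAt (productTwo f Z) v b')
    (hb'' : ValueAt (constantTwo f Z) v b'') (hA : ValueAt (averageValue f) v A) :
    b' - (b + b'') - A / Real.sqrt (nm K v) * t₁ Z v = 0 := by
  obtain ⟨κ, _, _, φ, hk, hc⟩ := Pool.Agent.W353.PV.exists_ext v 1 le_rfl
  rw [pow_one] at hc
  obtain ⟨A2, hA2, h1⟩ := at_self hb hk hc
  obtain ⟨a₁, a₂, c₁, c₂, h2, h3, h4, h5⟩ := at_self hb' hk hc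
  obtain ⟨c₂', h6, h7⟩ := at_self hb'' hk hc
  obtain ⟨a, h8, h9⟩ : f.IsAverage 1 φ A := at_self hA hk hc
  obtain ⟨a', h10, h11⟩ := hA2
  have hr := f.one_le
  have hd := Z.dim_pos
  have e1 : c₂' = c₂ := isTrace_unique (by omega) h6 h4
  have e2 : c₁ = (∑ k, α k).re := isTrace_unique (by omega) h3 (h.trace hk hc)
  have e3 : A = ((Nat.card κ : ℝ) ^ f.m)⁻¹ * ∑ᶠ t ∈ f.points φ, a₁ t := by
    rw [h9]
    congr 1
    exact finsum_mem_congr rfl fun t ht => isTrace_unique (by omega) (h8 t ht) (h2 t ht).1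
  have e4 : A2 = ((Nat.card κ : ℝ) ^ f.m)⁻¹ * ∑ᶠ t ∈ f.points φ, a₂ t := by
    rw [h11]
    congr 1
    exact finsum_mem_congr rfl fun t ht => isTrace_unique (by omega) (h10 t ht) (h2 t ht).2
  have hfin : (f.points φ).Finite := Set.toFinite _
  have e5 : ∑ᶠ t ∈ f.points φ, (a₂ t + a₁ t * c₁ + c₂) =
      ∑ᶠ t ∈ f.points φ, a₂ t + (∑ᶠ t ∈ f.points φ, a₁ t) * c₁ + ∑ᶠ t ∈ f.points φ, c₂ := by
    rw [finsum_mem_add_distrib hfin, finsum_mem_add_distrib hfin, finsum_mem_mul]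
  have hq1 : (1 : ℝ) < nm K v := nm_pos v
  have hqe : (Nat.card κ : ℝ) = nm K v := by rw [hc]; rfl
  have hs : Real.sqrt (nm K v) * Real.sqrt (nm K v) = nm K v := Real.mul_self_sqrt (by linarith)
  have hs0 : 0 < Real.sqrt (nm K v) := Real.sqrt_pos.2 (by linarith)
  rw [t₁_eq h.frob, aux2 hs hs0, h1, h5, h7, e5, e1, e4, e3, ← e2, hqe]
  ring

variable {ι : Type} {l : Filter ι} {E : ι → (HeightOneSpectrum (𝓞 K) → ℝ) → ℝ}
  {av : Finset (HeightOneSpectrum (𝓞 K)) → (HeightOneSpectrum (𝓞 K) → ℝ) → ι → ℝ}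

/-- **The deviation as an average.** -/
theorem dev2 (h : IsAvg l E) (hav : ∀ R b t, Bd t → (∀ v, v ∉ R → b v = t v) →
      Tendsto (fun i => av R b i - E i t) l (𝓝 0)) (hZ : IsSmoothConnected Z)
    {R₀ : Finset (HeightOneSpectrum (𝓞 K))} {A : HeightOneSpectrum (𝓞 K) → ℝ}
    (hA : IsAverages f R₀ A) {R R' R'' : Finset (HeightOneSpectrum (𝓞 K))}
    {b b' b'' : HeightOneSpectrum (𝓞 K) → ℝ} (hb : IsSystem (degreeTwoValue f) R b)
    (hb' : IsSystem (productTwo f Z) R' b') (hb'' : IsSystem (constantTwo f Z) R'' b'')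
    {D : ι → ℝ} (hD : ∀ i, D i = av R' b' i - av R b i - av R'' b'' i) :
    Tendsto (fun i => D i - E i fun v => phi R₀ A v * t₁ Z v) l (𝓝 0) := by
  obtain ⟨C, hC⟩ := hZ.data
  have h1 := hav R b (off R b) (bd_off hb.2) fun v hv => (off_of hv).symm
  have h2 := hav R' b' (off R' b') (bd_off hb'.2) fun v hv => (off_of hv).symm
  have h2' := hav R'' b'' (off R'' b'') (bd_off hb''.2) fun v hv => (off_of hv).symm
  have h3 := h.diff (t := fun v => off R b v + off R'' b'' v) (t' := off R' b')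
    (ψ := fun v => phi R₀ A v * t₁ Z v) ((bd_off hb.2).add (bd_off hb''.2)) (bd_off hb'.2)
    ((bd_phi hA).mul ⟨Z.b₁, t₁_le Z⟩) (fun η hη => by
      filter_upwards [hC, R.finite_toSet.eventually_cofinite_notMem,
        R'.finite_toSet.eventually_cofinite_notMem, R''.finite_toSet.eventually_cofinite_notMem,
        R₀.finite_toSet.eventually_cofinite_notMem] with v hv hR hR' hR'' hR₀
      obtain ⟨α, β, hd⟩ := hv
      have hR1 : v ∉ R := fun hh => hR hh
      have hR1' : v ∉ R' := fun hh => hR' hh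
      have hR1'' : v ∉ R'' := fun hh => hR'' hh
      have hR₀1 : v ∉ R₀ := fun hh => hR₀ hh
      have h4 := value2 hd (hb.1 v hR1) (hb'.1 v hR1') (hb''.1 v hR1'') (hA.1 v hR₀1)
      unfold phi
      rw [off_of hR1, off_of hR1', off_of hR1'', off_of hR₀1]
      refine le_of_eq_of_le ?_ hη.le
      rw [abs_eq_zero]
      exact h4)
  have h4 := ((h2.sub h1).sub h2').add h3
  simp only [sub_zero, add_zero] at h4
  refine h4.congr' ?_
  filter_upwards [h.mn.add _ _ (bd_off hb.2) (bd_off hb''.2)] with i hi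
  rw [hD, hi]
  ring

variable {Ω : Type} {L : Ω → ℕ} {F : ∀ x, CuspForm (Gamma0 (L x) : Subgroup (GL (Fin 2) ℝ)) 2}
  {I : Type} {W : I → VarK K} {m : I → Ω →₀ ℕ} {M : ℕ} {ρ : ℝ}

/-- analytic averages on `H²` -/
theorem analytic2 (hF : IsNewforms L F)
    {R₀ : Finset (HeightOneSpectrum (𝓞 K))} {A : HeightOneSpectrum (𝓞 K) → ℝ}
    (hA : IsAverages f R₀ A)
    (hρ : UpperLE (𝓝[>] 1) (residue R₀ fun v => A v ^ 2 / (Ideal.absNorm v.asIdeal : ℝ)) ρ)
    (hW : ∀ i, IsSmoothConnected (W i)) (hm : ∀ i, IsNewformSum F (W i) (m i))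
    (hM : ∀ (x : Ω) (S : Finset I), (∀ i ∈ S, m i x ≠ 0) → S.card ≤ M)
    {D : I → ℝ → ℝ} (hD : ∀ i, IsTwoDeviation f (W i) (D i)) :
    (∀ (J : Finset I) (c : I → ℝ), (∀ i ∈ J, 0 ≤ c i) →
      ((∀ i ∈ J, LowerGE (𝓝[>] 1) (D i) (c i)) ∨ ∀ i ∈ J, UpperLE (𝓝[>] 1) (D i) (-c i)) →
      ∑ i ∈ J, c i ^ 2 / ((m i).sum fun _ k => k ^ 2 : ℕ) ≤ M * (Module.finrank ℚ K * ρ)) ∧
    ∀ (w : ℕ) (δ : ℝ), 0 < δ →
      {i | ((m i).sum fun _ k => k ^ 2) ≤ w ∧
        (LowerGE (𝓝[>] 1) (D i) δ ∨ UpperLE (𝓝[>] 1) (D i) (-δ))}.Finite ∧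
      ({i | ((m i).sum fun _ k => k ^ 2) ≤ w ∧
        (LowerGE (𝓝[>] 1) (D i) δ ∨ UpperLE (𝓝[>] 1) (D i) (-δ))}.ncard : ℝ) ≤
        2 * (M * (Module.finrank ℚ K * ρ)) * w / δ ^ 2 := by
  refine law hF isAvgA (av := fun R b => residue R b) (fun R b t ht h => anaS ht h) hA hρ hm hM
    fun i => ?_
  obtain ⟨R, R', R'', b, b', b'', h1, h2, h3, h4⟩ := hD i
  exact dev2 isAvgA (av := fun R b => residue R b) (fun R b t ht h => anaS ht h) (hW i) hA
    h1 h2 h3 h4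

end

end Pool.Agent.U187.TN
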